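import Pool.Agent.H320R.Harvey

set_option autoImplicit false

/-!
The relations between the exponents of systems whose differences of exponents have rough denominators.
-/

open Finset

namespace Pool.Agent.H320R

open Pool.Agent.N858.PC

/-- The relations of degree one and the nonnegative relations which remain after the deletion of less
than `n` exponents (`Structured`), the matching of the exponents at two points modulo the differences at
the other points (`Matching`), and Harvey's condition (`Harvey`). -/
def Related {X : Type*} [Fintype X] {n : ℕ} (B : ℕ) (e : X → Fin n → ℚ) : Prop :=
  Matching e ∧ Harvey e ∧ Structured B e

theorem related_of_structured {X : Type*} [Fintype X] [Nontrivial X] {n : ℕ} {B : ℕ}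
    {e : X → Fin n → ℚ} (h : Structured B e) : Related B e :=
  ⟨matching_of_pairRel h.2, harvey_of_matching (matching_of_pairRel h.2), h⟩

end Pool.Agent.H320R
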