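import Pool.Agent.N858.PC.Defs

set_option autoImplicit false

/-!
Consequences of the relations of degree one: the exponents at two points match, and Harvey's condition.
-/

open Finset

namespace Pool.Agent.H320R

open Pool.Agent.N858.PC

section defs

variable {X : Type*} {n : ℕ}

/-- `q` is a common denominator of the differences of the exponents at the points `z` with `P z`. -/
def DenOn (e : X → Fin n → ℚ) (P : X → Prop) (q : ℕ) : Prop :=
  ∀ z, P z → ∀ l l', ∃ w : ℤ, (q : ℚ) * (e z l - e z l') = w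

/-- The exponents at any two points match modulo the differences at the other points: for any two
points `x ≠ y` there is a permutation `σ` such that, for every common denominator `q` of the
differences of the exponents at the points different from `x` and `y` and for every choice `κ` of one
exponent at every point with `κ y = σ (κ x)`, the number `q * ∑ z, e z (κ z)` is an integer. -/
def Matching [Fintype X] (e : X → Fin n → ℚ) : Prop :=
  ∀ x y, x ≠ y → ∃ σ : Equiv.Perm (Fin n), ∀ q : ℕ, DenOn e (fun z => z ≠ x ∧ z ≠ y) q →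
    ∀ κ : X → Fin n, κ y = σ (κ x) → ∃ w : ℤ, (q : ℚ) * ∑ z, e z (κ z) = w

/-- Harvey's condition: every common denominator of the differences of the exponents at the points
different from `x` is a common denominator of the differences at `x`. Equivalently, the least common
denominator of the differences at a point divides the least common multiple of the least common
denominators at the other points. -/
def Harvey (e : X → Fin n → ℚ) : Prop :=
  ∀ x, ∀ q : ℕ, DenOn e (fun z => z ≠ x) q → DenOn e (fun z => z = x) q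

end defs

variable {X Y : Type*} [Fintype X] [Fintype Y] {n : ℕ}

theorem matching_of_pairRel {B : ℕ} {e : X → Fin n → ℚ} (h : PairRel B e) : Matching e := by
  classical
  intro x y hxy
  obtain ⟨σ, hσ⟩ := h x y hxy
  refine ⟨σ, fun q hq κ hκ => ?_⟩
  obtain ⟨c, -, hcx, hcy, hc1, w, hw⟩ := hσ (κ x)
  have key : ∀ z, ∃ u : ℤ, (q : ℚ) * ∑ l, (c z l : ℚ) * (e z l - e z (κ z)) = u := by
    intro z
    by_cases hzx : z = x
    · subst hzx
      refine ⟨0, ?_⟩
      rw [Finset.sum_eq_zero]
      · simp
      · intro l _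
        rw [hcx l]
        split_ifs with hl
        · rw [hl]; simp
        · simp
    · by_cases hzy : z = y
      · subst hzy
        refine ⟨0, ?_⟩
        rw [Finset.sum_eq_zero]
        · simp
        · intro l _
          rw [hcy l, ← hκ]
          split_ifs with hl
          · rw [hl]; simp
          · simp
      · choose f hf using fun l => hq z ⟨hzx, hzy⟩ l (κ z)
        refine ⟨∑ l, c z l * f l, ?_⟩
        push_cast
        rw [Finset.mul_sum]
        refine Finset.sum_congr rfl fun l _ => ?_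
        rw [← hf l]; ring
  choose u hu using key
  refine ⟨(q : ℤ) * w - ∑ z, u z, ?_⟩
  have h1 : ∑ z, ((q : ℚ) * ∑ l, (c z l : ℚ) * (e z l - e z (κ z))) =
      (q : ℚ) * (∑ z, ∑ l, (c z l : ℚ) * e z l) - (q : ℚ) * ∑ z, e z (κ z) := by
    rw [← Finset.mul_sum, ← mul_sub, ← Finset.sum_sub_distrib]
    congr 1
    refine Finset.sum_congr rfl fun z _ => ?_
    have h2 : ∑ l, (c z l : ℚ) = 1 := by exact_mod_cast hc1 z
    simp only [mul_sub]
    rw [Finset.sum_sub_distrib, ← Finset.sum_mul, h2, one_mul]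
  rw [Finset.sum_congr rfl fun z _ => hu z, hw] at h1
  push_cast
  linarith

theorem harvey_of_matching [Nontrivial X] {e : X → Fin n → ℚ} (h : Matching e) : Harvey e := by
  classical
  rintro x q hq z rfl l l'
  obtain ⟨y, hy⟩ := exists_ne z
  obtain ⟨σ, hσ⟩ := h z y hy.symm
  have hq' : DenOn e (fun w => w ≠ z ∧ w ≠ y) q := fun w hw => hq w hw.1
  obtain ⟨a, ha⟩ := hσ q hq' (fun w => if w = z then l else if w = y then σ l else l)
    (by simp [hy])
  obtain ⟨b, hb⟩ := hσ q hq' (fun w => if w = z then l' else if w = y then σ l' else l)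
    (by simp [hy])
  obtain ⟨c, hc⟩ := hq y hy (σ l) (σ l')
  have h1 : ∑ w, e w (if w = z then l else if w = y then σ l else l) -
      ∑ w, e w (if w = z then l' else if w = y then σ l' else l) =
      (e z l - e z l') + (e y (σ l) - e y (σ l')) := by
    rw [← Finset.sum_sub_distrib]
    rw [← Finset.sum_subset (Finset.subset_univ {z, y})]
    · rw [Finset.sum_pair hy.symm]
      simp [hy]
    · intro w _ hw
      simp only [Finset.mem_insert, Finset.mem_singleton, not_or] at hw
      simp [hw.1, hw.2]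
  refine ⟨a - b - c, ?_⟩
  push_cast
  rw [← ha, ← hb, ← hc, ← mul_sub, h1]
  ring

theorem structured_comp {B : ℕ} {e : X → Fin n → ℚ} (p : Y ≃ X) (h : Structured B e) :
    Structured B (fun y => e (p y)) := by
  classical
  refine ⟨fun Ω hΩ => ?_, ?_⟩
  · obtain ⟨⟨c, h1, h2, h3, w, h4⟩, M, q, h5, h6, h7, h8, w', h9⟩ :=
      h.1 (Ω.map (p.prodCongr (Equiv.refl _)).toEmbedding) (by rwa [Finset.card_map])
    refine ⟨⟨fun y => c (p y), fun y l => h1 _ _, fun t ht => ?_, fun y => h3 _, w, ?_⟩,
      M, fun y => q (p y), h5, h6, fun t ht => ?_, fun y => h8 _, w', ?_⟩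
    · exact h2 (p t.1, t.2) (Finset.mem_map.2 ⟨t, ht, rfl⟩)
    · rw [← h4]
      exact Equiv.sum_comp p (fun x => ∑ l, (c x l : ℚ) * e x l)
    · exact h7 (p t.1, t.2) (Finset.mem_map.2 ⟨t, ht, rfl⟩)
    · rw [← h9]
      exact Equiv.sum_comp p (fun x => ∑ l, (q x l : ℚ) * e x l)
  · intro x y hxy
    obtain ⟨σ, hσ⟩ := h.2 (p x) (p y) (fun h => hxy (p.injective h))
    refine ⟨σ, fun i => ?_⟩
    obtain ⟨c, h1, h2, h3, h4, w, h5⟩ := hσ i
    refine ⟨fun z => c (p z), fun z l => h1 _ _, h2, h3, fun z => h4 _, w, ?_⟩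
    rw [← h5]
    exact Equiv.sum_comp p (fun x => ∑ l, (c x l : ℚ) * e x l)

theorem spread_comp {B : ℕ} {e : X → Fin n → ℚ} (p : Y ≃ X) (h : Spread B e) :
    Spread B (fun y => e (p y)) := by
  classical
  intro Ω hΩ
  obtain ⟨M, q, h5, h6, h7, h8, ⟨w', h9⟩, x, l, l', h10, h11, h12⟩ :=
    h (Ω.map (p.prodCongr (Equiv.refl _)).toEmbedding) (by rwa [Finset.card_map])
  refine ⟨M, fun y => q (p y), h5, h6, fun t ht => ?_, fun y => h8 _, ⟨w', ?_⟩,
    p.symm x, l, l', h10, ?_, ?_⟩
  · exact h7 (p t.1, t.2) (Finset.mem_map.2 ⟨t, ht, rfl⟩)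
  · rw [← h9]
    exact Equiv.sum_comp p (fun x => ∑ l, (q x l : ℚ) * e x l)
  · simpa using h11
  · simpa using h12

theorem rough_comp {B : ℕ} {e : X → Fin n → ℚ} {e' : Y → Fin n → ℚ} (p : Y ≃ X)
    (he : ∀ y l, e (p y) l = e' y l) (h : Rough B e') : Rough B e := by
  obtain ⟨q, hq, h1, h2⟩ := h
  refine ⟨q, hq, h1, fun x l l' => ?_⟩
  obtain ⟨w, hw⟩ := h2 (p.symm x) l l'
  refine ⟨w, ?_⟩
  rw [← hw, ← he, ← he, Equiv.apply_symm_apply]

end Pool.Agent.H320R
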