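import Pool.Agent.U476.ZO.Fin
import Pool.Agent.U476.NB.Rel3
import Pool.Agent.H105R3.JSanCurl
import Pool.Agent.H309R4.Jones.SanU
import Pool.Agent.H309R4.Jones.SanI
import Pool.Agent.H927R2.J.SanYB
import Pool.Agent.H345J.Tasks
import Pool.Agent.H559R3.J.Cross
import Pool.Agent.H667J.Hex12
import Pool.Agent.H22R3.J.Nat
import Pool.Agent.H550R3.Jones.SanSkein699

/-!
# Kashaev invariants: definitions and the theorem on zeros

The definitions (coloured Jones polynomial from the R-matrix) and their checks are those of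
`MP_bdeb5b_gt.ZeroOneLaw` (helper476); the main theorem collects what the library `Pool/Agent/U476` proves
about the zeros of Kashaev invariants and of relations between them.
-/

set_option autoImplicit false

namespace Pool.Agent.H320R.Kash

open Finset

/-! ### The coloured Jones polynomial -/

/-- `{n} = v^n - v^{-n}` -/
noncomputable def br (v : ℂ) (n : ℤ) : ℂ := v ^ n - v ^ (-n)

/-- `{n}! = {1} {2} ⋯ {n}` -/
noncomputable def brf (v : ℂ) (n : ℕ) : ℂ := ∏ j ∈ range n, br v ((j : ℤ) + 1)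

/-- The positive crossing: the R-matrix of `U_q(sl_2)` on `V_N ⊗ V_N`, `V_N` with basis
`e_0, …, e_{N-1}`, times the framing factor `v^{-(N^2-1)/2}`; `crossP N v p q` is the coefficient
of `e_{p.1} ⊗ e_{p.2}` in the image of `e_{q.1} ⊗ e_{q.2}`:
`e_i ⊗ e_j ↦ ∑_n v^{-(N-1)(1+i+j) + 2(i-n)(j+n) + n(n-1)/2}
({j+n}! / ({j}! {n}!)) ∏_{t<n} {N-i+t} e_{j+n} ⊗ e_{i-n}`. -/
noncomputable def crossP (N : ℕ) (v : ℂ) : Matrix (Fin N × Fin N) (Fin N × Fin N) ℂ :=
  fun p q => if (p.1 : ℕ) + p.2 = q.1 + q.2 ∧ (q.2 : ℕ) ≤ p.1 then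
    v ^ (-((N : ℤ) - 1) * (1 + (q.1 : ℕ) + (q.2 : ℕ)) + 2 * (p.1 : ℕ) * (p.2 : ℕ)) *
      v ^ (((p.1 : ℕ) - q.2) * ((p.1 : ℕ) - q.2 - 1) / 2) *
      (brf v p.1 / (brf v q.2 * brf v ((p.1 : ℕ) - q.2))) *
      ∏ t ∈ range ((p.1 : ℕ) - q.2), br v ((N : ℤ) - (q.1 : ℕ) + t)
    else 0

/-- The negative crossing, inverse of `crossP N v`:
`e_i ⊗ e_j ↦ ∑_n (-1)^n v^{(N-1)(1+i+j) - 2ij - n(n-1)/2}
({i+n}! / ({i}! {n}!)) ∏_{t<n} {N-j+t} e_{j-n} ⊗ e_{i+n}`. -/
noncomputable def crossN (N : ℕ) (v : ℂ) : Matrix (Fin N × Fin N) (Fin N × Fin N) ℂ :=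
  fun p q => if (p.1 : ℕ) + p.2 = q.1 + q.2 ∧ (q.1 : ℕ) ≤ p.2 then
    (-1) ^ ((p.2 : ℕ) - q.1) *
      v ^ (((N : ℤ) - 1) * (1 + (q.1 : ℕ) + (q.2 : ℕ)) - 2 * (q.1 : ℕ) * (q.2 : ℕ)) /
      v ^ (((p.2 : ℕ) - q.1) * ((p.2 : ℕ) - q.1 - 1) / 2) *
      (brf v p.2 / (brf v q.1 * brf v ((p.2 : ℕ) - q.1))) *
      ∏ t ∈ range ((p.2 : ℕ) - q.1), br v ((N : ℤ) - (q.2 : ℕ) + t)
    else 0

/-- The braid generator `s_k` on `n` strands (it acts on the strands number `k` and `k + 1`,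
counted from `0`) by the crossing matrix `A`. -/
def gen {ι : Type} [DecidableEq ι] (A : Matrix (ι × ι) (ι × ι) ℂ) (n k : ℕ) :
    Matrix (Fin n → ι) (Fin n → ι) ℂ :=
  fun s t => if h : k + 1 < n then
    (if ∀ j : Fin n, (j : ℕ) ≠ k → (j : ℕ) ≠ k + 1 → s j = t j then
      A (s ⟨k, by omega⟩, s ⟨k + 1, h⟩) (t ⟨k, by omega⟩, t ⟨k + 1, h⟩) else 0)
    else (if s = t then 1 else 0)

/-- The operator of a braid word on `n` strands: the letter `(k, true)` is `s_k`, the letter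
`(k, false)` is its inverse; `P` and `Q` are the matrices of the two crossings. -/
def rep {ι : Type} [Fintype ι] [DecidableEq ι] (P Q : Matrix (ι × ι) (ι × ι) ℂ) (n : ℕ)
    (w : List (ℕ × Bool)) : Matrix (Fin n → ι) (Fin n → ι) ℂ :=
  (w.map fun g => gen (if g.2 then P else Q) n g.1).prod

/-- The partial trace over all strands but the first one, with weights `k`; `n + 1` strands. -/
def tail {ι : Type} [Fintype ι] (k : ι → ℂ) (n : ℕ)
    (A : Matrix (Fin (n + 1) → ι) (Fin (n + 1) → ι) ℂ) : Matrix ι ι ℂ :=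
  fun i j => ∑ s : Fin n → ι, (∏ x, k (s x)) * A (Fin.cons i s) (Fin.cons j s)

/-- The `N`-coloured Jones polynomial (unknot `= 1`) of the closure of the braid word `w` on
`n + 1` strands, at `q = v^2`: the entry at the highest weight vector `e_0` of the partial quantum
trace, with the weights `v^{N-1-2x}` of `K`. -/
noncomputable def cjones (N n : ℕ) (w : List (ℕ × Bool)) (v : ℂ) : ℂ :=
  if h : 0 < N then
    tail (fun x : Fin N => v ^ ((N : ℤ) - 1 - 2 * (x : ℕ))) n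
      (rep (crossP N v) (crossN N v) (n + 1) w) ⟨0, h⟩ ⟨0, h⟩ else 0

/-! ### Knots -/

/-- The permutation of a braid word on `n` strands. -/
def perm (n : ℕ) (w : List (ℕ × Bool)) : Equiv.Perm (Fin n) :=
  (w.map fun g => if h : g.1 + 1 < n then
    (Equiv.swap ⟨g.1, by omega⟩ ⟨g.1 + 1, h⟩ : Equiv.Perm (Fin n)) else 1).prod

/-- The closure of the braid word `w` on `n + 1` strands is a knot: the powers of its permutation
take the strand number `0` to all strands. -/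
def IsKnot (n : ℕ) (w : List (ℕ × Bool)) : Prop :=
  ∀ k : Fin (n + 1), ∃ i : ℕ, (perm (n + 1) w ^ i) 0 = k

/-! ### Relations -/

/-- The value `P(q; J_N(K_1; q), …, J_N(K_s; q))`, `q = v^2`, of a polynomial `P` with integer
coefficients; the variable `none` stands for `q`, and `some i` for the `N`-coloured Jones polynomial
of the closure of the braid word `(K i).2` on `(K i).1 + 1` strands. -/
noncomputable def rel {s : ℕ} (K : Fin s → ℕ × List (ℕ × Bool))
    (P : MvPolynomial (Option (Fin s)) ℤ) (N : ℕ) (v : ℂ) : ℂ :=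
  MvPolynomial.aeval (fun o : Option (Fin s) =>
    o.elim (v ^ 2) fun i => cjones N (K i).1 (K i).2 v) P

/-! ### Checks of the definitions (not part of the result) -/

/-- For `N = 2` the crossings satisfy the skein relation of the Jones polynomial. -/
theorem skein (v : ℂ) (hv : v ≠ 0) (h1 : br v 1 ≠ 0) :
    v ^ 2 • crossP 2 v - (v ^ 2)⁻¹ • crossN 2 v =
      (v - v⁻¹) • (1 : Matrix (Fin 2 × Fin 2) (Fin 2 × Fin 2) ℂ) :=
  Pool.Agent.H550R3.Jones.taskSanSkein v hv h1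

/-- The two crossings are inverse to each other. -/
theorem cross_inverse (N : ℕ) (v : ℂ) (hv : v ≠ 0)
    (h : ∀ k : ℕ, 0 < k → k < N → br v k ≠ 0) :
    crossP N v * crossN N v = 1 ∧ crossN N v * crossP N v = 1 :=
  Pool.Agent.H309R4.Jones.SanI.taskSanInv Pool.Agent.H345J.taskMod Pool.Agent.H345J.taskInv
    Pool.Agent.H559R3.J.taskCross N v ⟨hv, h⟩

/-- The Yang-Baxter equation, for every colour. -/
theorem yang_baxter (N : ℕ) (v : ℂ) (hv : v ≠ 0) (h : ∀ k : ℕ, 0 < k → k < N → br v k ≠ 0) :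
    gen (crossP N v) 3 0 * gen (crossP N v) 3 1 * gen (crossP N v) 3 0 =
      gen (crossP N v) 3 1 * gen (crossP N v) 3 0 * gen (crossP N v) 3 1 :=
  Pool.Agent.H927R2.J.SanYB.taskSanYB Pool.Agent.H345J.taskMod Pool.Agent.H345J.taskInt
    Pool.Agent.H345J.taskInv Pool.Agent.H667J.taskHex1 Pool.Agent.H22R3.J.taskNat
    Pool.Agent.H559R3.J.taskCross N v ⟨hv, h⟩

/-- Curls may be removed: the framing is normalised. -/
theorem curl (N : ℕ) (v : ℂ) (hv : v ≠ 0) (h : ∀ k : ℕ, 0 < k → k < N → br v k ≠ 0) :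
    (fun i j => ∑ x : Fin N, v ^ ((N : ℤ) - 1 - 2 * (x : ℕ)) * crossP N v (i, x) (j, x)) =
      (1 : Matrix (Fin N) (Fin N) ℂ) ∧
    (fun i j => ∑ x : Fin N, v ^ ((N : ℤ) - 1 - 2 * (x : ℕ)) * crossN N v (i, x) (j, x)) =
      (1 : Matrix (Fin N) (Fin N) ℂ) :=
  Pool.Agent.H105R3.JSan.taskSanCurl N v ⟨hv, h⟩

/-- The unknot has the value `1`. -/
theorem unknot (N : ℕ) (v : ℂ) (hN : 0 < N) (hv : v ≠ 0)
    (h : ∀ k : ℕ, 0 < k → k < N → br v k ≠ 0) :
    cjones N 0 [] v = 1 ∧ cjones N 1 [(0, true)] v = 1 ∧ cjones N 1 [(0, false)] v = 1 :=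
  Pool.Agent.H309R4.Jones.SanU.taskSanUnknot N v hN ⟨hv, h⟩

/-! ### The theorem -/

/-- `v_N = exp (π i / N)`, so that `q = v_N^2 = exp (2 π i / N)`. -/
noncomputable def root (N : ℕ) : ℂ := Complex.exp (Real.pi * Complex.I / N)

lemma root_prim (N : ℕ) (hN : 1 ≤ N) : root N ∈ primitiveRoots (2 * N) ℂ := by
  rw [mem_primitiveRoots (by omega)]
  have h := Complex.isPrimitiveRoot_exp (2 * N) (by omega)
  have e : Complex.exp (2 * Real.pi * Complex.I / ((2 * N : ℕ) : ℂ)) = root N := by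
    rw [root]
    congr 1
    push_cast
    have : (N : ℂ) ≠ 0 := by
      have : N ≠ 0 := by omega
      exact_mod_cast this
    field_simp
  rwa [e] at h

lemma rel_eq {s : ℕ} (K : Fin s → ℕ × List (ℕ × Bool)) (P : MvPolynomial (Option (Fin s)) ℤ)
    (N : ℕ) (v : ℂ) : rel K P N v = Pool.Agent.U476.NB.GC K P N v := by
  have h : (fun o : Option (Fin s) => o.elim (v ^ 2) fun i => cjones N (K i).1 (K i).2 v) =
      Pool.Agent.U476.NB.cv K N v := by
    funext o
    cases o with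
    | none => rfl
    | some i => rfl
  rw [rel, h]
  rfl


open Classical in
/-- The number of the elements `n` of `S` with `1 ≤ n ≤ X`. -/
noncomputable def count (S : Set ℕ) (X : ℕ) : ℕ := ((Finset.Icc 1 X).filter (· ∈ S)).card

/-- the bound `X exp (-(log X loglog X)^{1/2} / 20)` -/
noncomputable def few (X : ℕ) : ℝ := X * Real.exp (-(√(Real.log X * Real.log (Real.log X)) / 20))

/-- The set `S` is sparse: for all large `X` it has at most `few X` elements `1 ≤ n ≤ X`, and for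
every `m ≥ 1` only finitely many prime powers `Q` are such that `m Q` is in `S`. -/
def Sparse (S : Set ℕ) : Prop :=
  (∃ X₀ : ℕ, ∀ X : ℕ, X₀ ≤ X → (count S X : ℝ) ≤ few X) ∧
  ∀ m : ℕ, 0 < m → {Q : ℕ | IsPrimePow Q ∧ m * Q ∈ S}.Finite

lemma count_mono {S T : Set ℕ} (h : S ⊆ T) (X : ℕ) : count S X ≤ count T X := by
  classical
  unfold count
  refine Finset.card_le_card fun n hn => ?_
  rw [Finset.mem_filter] at hn ⊢
  exact ⟨hn.1, h hn.2⟩

lemma Sparse.mono {S T : Set ℕ} (h : S ⊆ T) (hT : Sparse T) : Sparse S := by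
  obtain ⟨⟨X₀, h1⟩, h2⟩ := hT
  refine ⟨⟨X₀, fun X hX => le_trans ?_ (h1 X hX)⟩, fun m hm => (h2 m hm).subset ?_⟩
  · exact_mod_cast count_mono h X
  · rintro Q ⟨hQ, hQS⟩
    exact ⟨hQ, h hQS⟩

/-- the Kashaev invariant `J_N(q)`, `q = exp (2 π i / N)`, of the closure of the braid word `w` on
`n + 1` strands -/
noncomputable def kashaev (n : ℕ) (w : List (ℕ × Bool)) (N : ℕ) : ℂ := cjones N n w (root N)

/-- the value of the relation at `q = exp (2 π i / N)` -/
noncomputable def relAt {s : ℕ} (K : Fin s → ℕ × List (ℕ × Bool))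
    (P : MvPolynomial (Option (Fin s)) ℤ) (N : ℕ) : ℂ := rel K P N (root N)

theorem links {N : ℕ} (hN : 2 ≤ N) (n : ℕ) (w : List (ℕ × Bool)) (hne : kashaev n w N ≠ 0) :
    Real.exp (-((2 * n + 27 * w.length) * (N * Real.log N ^ 2))) ≤ ‖kashaev n w N‖ ∧
    |Real.log ‖kashaev n w N‖| ≤ 2 * ((2 * n + 27 * w.length) * (N * Real.log N ^ 2)) := by
  have hr := root_prim N (by omega)
  have h0 := Pool.Agent.U476.NB.main (N := N) hN (by omega) le_rfl n w hr hne
  have h1 : ∑ μ ∈ primitiveRoots (2 * N) ℂ, |Real.log ‖cjones N n w μ‖| ≤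
      2 * ((2 * n + 27 * w.length) * (N * Real.log N ^ 2)) := h0.1
  refine ⟨h0.2 _ hr, le_trans ?_ h1⟩
  exact Finset.single_le_sum (f := fun μ => |Real.log ‖cjones N n w μ‖|)
    (fun _ _ => abs_nonneg _) hr

/-- `C N log^2 N` for the closure of a braid word with `ℓ` letters on `n + 1` strands, where
`C = 2 n + 27 ℓ` -/
noncomputable def size (n : ℕ) (w : List (ℕ × Bool)) (N : ℕ) : ℝ :=
  (2 * n + 27 * w.length) * (N * Real.log N ^ 2)

lemma size_nonneg (n : ℕ) (w : List (ℕ × Bool)) (N : ℕ) : 0 ≤ size n w N := by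
  unfold size
  positivity

lemma size_mono (n : ℕ) (w : List (ℕ × Bool)) {M N : ℕ} (hM : 1 ≤ M) (h : M ≤ N) :
    size n w M ≤ size n w N := by
  unfold size
  have h1 : (1 : ℝ) ≤ M := by exact_mod_cast hM
  have h2 : (M : ℝ) ≤ N := by exact_mod_cast h
  have h3 : Real.log M ≤ Real.log N := Real.log_le_log (by linarith) h2
  have h4 : 0 ≤ Real.log M := Real.log_nonneg h1
  gcongr

theorem links' {N : ℕ} (hN : 2 ≤ N) (n : ℕ) (w : List (ℕ × Bool)) (hne : kashaev n w N ≠ 0) :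
    Real.exp (-size n w N) ≤ ‖kashaev n w N‖ ∧ |Real.log ‖kashaev n w N‖| ≤ 2 * size n w N :=
  links hN n w hne

theorem knot_prime_power {n : ℕ} {w : List (ℕ × Bool)} (hw : IsKnot n w) (p a : ℕ) (hp : p.Prime) :
    kashaev n w (p ^ a) ≠ 0 :=
  Pool.Agent.U476.NB.knot_ne_zero p a hp (p ^ a) n w (pow_pos hp.pos a) le_rfl hw _
    (root_prim (p ^ a) (pow_pos hp.pos a))

theorem relations {s : ℕ} (K : Fin s → ℕ × List (ℕ × Bool)) (hK : ∀ i, IsKnot (K i).1 (K i).2)
    (P : MvPolynomial (Option (Fin s)) ℤ) :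
    ((∀ N : ℕ, 1 ≤ N → ∀ v ∈ primitiveRoots (2 * N) ℂ, rel K P N v = 0) ∨
      Sparse {N | relAt K P N = 0}) ∧
    ∃ C : ℝ, ∀ N : ℕ, 2 ≤ N → relAt K P N ≠ 0 →
      Real.exp (-(C * (N * Real.log N ^ 2))) ≤ ‖relAt K P N‖ ∧
      |Real.log ‖relAt K P N‖| ≤ 2 * (C * (N * Real.log N ^ 2)) := by
  classical
  have hroot : ∀ N, 1 ≤ N → IsPrimitiveRoot (root N) (2 * N) := fun N hN =>
    isPrimitiveRoot_of_mem_primitiveRoots (root_prim N hN)
  have hK' : Pool.Agent.U476.NB.Kn K := hK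
  have hall : ∀ N : ℕ, 1 ≤ N → ∀ v ∈ primitiveRoots (2 * N) ℂ,
      (rel K P N v = 0 ↔ Pool.Agent.U476.NB.GC K P N (root N) = 0) := by
    intro N hN v hv
    rw [rel_eq, ← Pool.Agent.U476.ZO.van_iff K P hK' hN (isPrimitiveRoot_of_mem_primitiveRoots hv),
      ← Pool.Agent.U476.ZO.van_iff K P hK' hN (hroot N hN)]
  constructor
  · by_cases h : ∀ N : ℕ, 1 ≤ N → ∀ v ∈ primitiveRoots (2 * N) ℂ, rel K P N v = 0
    · exact Or.inl h
    · right
      push Not at h
      obtain ⟨m, hm, v, hv, hne⟩ := h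
      have hne' : Pool.Agent.U476.NB.GC K P m (root m) ≠ 0 := fun h0 => hne ((hall m hm v hv).2 h0)
      obtain ⟨⟨X₀, hX₀⟩, h2⟩ := Pool.Agent.U476.ZO.rel_zeros K P hK' hroot hm hne'
      refine ⟨⟨X₀, fun X hX => hX₀ X hX _ fun N hN => ?_⟩, fun m hm => (h2 m hm).subset ?_⟩
      · have hN' := (@Finset.mem_filter ℕ (fun N : ℕ => N ∈ {N | relAt K P N = 0})
          (fun a => Classical.propDecidable _) (Finset.Icc 1 X) N).1 (by convert hN)
        rw [Finset.mem_Icc] at hN'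
        refine ⟨by omega, hN'.1.2, ?_⟩
        have h3 : relAt K P N = 0 := hN'.2
        rwa [relAt, rel_eq] at h3
      · rintro Q ⟨hQ, h3⟩
        have h3 : relAt K P (m * Q) = 0 := h3
        rw [relAt, rel_eq] at h3
        exact ⟨hQ, h3⟩
  · refine ⟨Pool.Agent.U476.NB.G0 K P, fun N hN hne => ?_⟩
    have hr := root_prim N (by omega)
    rw [relAt, rel_eq] at hne ⊢
    refine ⟨(Pool.Agent.U476.NB.rel_main K P hN hr hne).2.2 _ hr, le_trans ?_
      (Pool.Agent.U476.ZO.rel_abs K P hN hr hne)⟩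
    exact Finset.single_le_sum (f := fun μ => |Real.log ‖Pool.Agent.U476.NB.GC K P N μ‖|)
      (fun _ _ => abs_nonneg _) hr

theorem knot_zeros {n : ℕ} {w : List (ℕ × Bool)} (hw : IsKnot n w) :
    Sparse {N | kashaev n w N = 0} := by
  set kn : Fin 1 → ℕ × List (ℕ × Bool) := fun _ => (n, w) with hkn
  have h1 : ∀ N v, rel kn (MvPolynomial.X (some 0)) N v = cjones N n w v := by
    intro N v
    rw [rel, MvPolynomial.aeval_X]
    rfl
  have h2 := (relations kn (fun _ => hw) (MvPolynomial.X (some 0))).1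
  rcases h2 with h2 | h2
  · exfalso
    have h3 := h2 2 (by norm_num) (root 2) (root_prim 2 (by norm_num))
    rw [h1] at h3
    exact knot_prime_power hw 2 1 Nat.prime_two (by rw [pow_one]; exact h3)
  · refine h2.mono ?_
    intro N hN
    have hN : kashaev n w N = 0 := hN
    show relAt kn (MvPolynomial.X (some 0)) N = 0
    rw [relAt, h1]
    exact hN

/-- the exceptions: the `N ≥ 2` for which `a_N` or `a_(N+2)` is zero or `log |a_(N+2) / a_N|` is large -/
def Exceptional (n : ℕ) (w : List (ℕ × Bool)) : Set ℕ :=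
  {N | 2 ≤ N ∧ ¬ (kashaev n w N ≠ 0 ∧ kashaev n w (N + 2) ≠ 0 ∧
    |Real.log ‖kashaev n w (N + 2) / kashaev n w N‖| ≤ 4 * size n w (N + 2))}

lemma exceptional_sub (n : ℕ) (w : List (ℕ × Bool)) (N : ℕ)
    (h : N ∈ Exceptional n w) : kashaev n w N = 0 ∨ kashaev n w (N + 2) = 0 := by
  by_contra hc
  push Not at hc
  have hN : 2 ≤ N := h.1
  apply h.2
  refine ⟨hc.1, hc.2, ?_⟩
  have h1 := (links' hN n w hc.1).2
  have h2 := (links' (N := N + 2) (by omega) n w hc.2).2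
  have h3 := size_mono n w (M := N) (N := N + 2) (by omega) (by omega)
  rw [norm_div, Real.log_div (norm_ne_zero_iff.2 hc.2) (norm_ne_zero_iff.2 hc.1)]
  have h4 := abs_sub (Real.log ‖kashaev n w (N + 2)‖) (Real.log ‖kashaev n w N‖)
  linarith

theorem knot_ratios {n : ℕ} {w : List (ℕ × Bool)} (hw : IsKnot n w) :
    ∃ X₀ : ℕ, ∀ X : ℕ, X₀ ≤ X → (count (Exceptional n w) X : ℝ) ≤ few X + few (X + 2) := by
  classical
  obtain ⟨⟨X₀, h0⟩, -⟩ := knot_zeros hw
  refine ⟨X₀, fun X hX => ?_⟩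
  have h1 := h0 X hX
  have h2 := h0 (X + 2) (by omega)
  have h3 : count (Exceptional n w) X ≤
      count {N | kashaev n w N = 0} X + count {N | kashaev n w N = 0} (X + 2) := by
    unfold count
    have e : (Finset.Icc 1 X).filter (· ∈ Exceptional n w) ⊆
        (Finset.Icc 1 X).filter (· ∈ {N | kashaev n w N = 0}) ∪
          ((Finset.Icc 1 (X + 2)).filter (· ∈ {N | kashaev n w N = 0})).image (· - 2) := by
      intro N hN
      rw [Finset.mem_filter, Finset.mem_Icc] at hN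
      rw [Finset.mem_union, Finset.mem_filter, Finset.mem_image, Finset.mem_Icc]
      rcases exceptional_sub n w N hN.2 with h5 | h5
      · exact Or.inl ⟨hN.1, h5⟩
      · refine Or.inr ⟨N + 2, ?_, by omega⟩
        rw [Finset.mem_filter, Finset.mem_Icc]
        exact ⟨by omega, h5⟩
    refine (Finset.card_le_card e).trans ?_
    refine (Finset.card_union_le _ _).trans ?_
    exact Nat.add_le_add_left Finset.card_image_le _
  have h4 : (count (Exceptional n w) X : ℝ) ≤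
      count {N | kashaev n w N = 0} X + count {N | kashaev n w N = 0} (X + 2) := by
    exact_mod_cast h3
  linarith

end Pool.Agent.H320R.Kash
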