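import Pool.Agent.H320R.Sys
import Pool.Agent.R927.PB3
import Pool.Agent.TH295.FO.Esbt

set_option autoImplicit false

/-!
Pull-backs of systems with rough denominators.
-/

open Finset Polynomial

namespace Pool.Agent.H320R

open Pool.Agent.N858.PC Pool.Agent.W432.PC Pool.Agent.W432.TC Pool.Agent.W432.HK
open Pool.Agent.Y227.SS Pool.Agent.Y227.TP Pool.Agent.R927 Pool.Agent.TH295.FO
open Pool.Agent.W77.IM (CoordRing)

universe u v w

lemma few_except {Bad Bad' : ℕ → Prop} {ε ε' : ℝ} (hε : ε < ε') (m : ℕ) (hm : 0 < m)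
    (hB : ∀ p, p.Prime → Bad' p → Bad p ∨ p ∣ m) (h : Few Bad ε) : Few Bad' ε' := by
  classical
  intro N₀
  have ht : Filter.Tendsto (fun N : ℕ => (ε' - ε) * (Nat.primeCounting N : ℝ)) Filter.atTop
      Filter.atTop :=
    (tendsto_natCast_atTop_atTop.comp Nat.tendsto_primeCounting).const_mul_atTop (sub_pos.2 hε)
  obtain ⟨N₁, hN₁⟩ := Filter.eventually_atTop.1 (ht.eventually_ge_atTop ((m : ℝ) + 1))
  obtain ⟨N, hN, h1⟩ := h (max N₀ N₁)
  refine ⟨N, (le_max_left _ _).trans hN, ?_⟩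
  have h2 := hN₁ N ((le_max_right _ _).trans hN)
  have hfin : Finite {p : ℕ // p ≤ N ∧ p.Prime ∧ Bad p} :=
    Set.Finite.subset (Set.finite_Iic N) (fun p hp => hp.1)
  have h3 : Nat.card {p : ℕ // p ≤ N ∧ p.Prime ∧ Bad' p} ≤
      Nat.card {p : ℕ // p ≤ N ∧ p.Prime ∧ Bad p} + (m + 1) := by
    have h4 : Nat.card ({p : ℕ // p ≤ N ∧ p.Prime ∧ Bad p} ⊕ Fin (m + 1)) =
        Nat.card {p : ℕ // p ≤ N ∧ p.Prime ∧ Bad p} + (m + 1) := by
      rw [Nat.card_sum, Nat.card_eq_fintype_card (α := Fin (m + 1)), Fintype.card_fin]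
    rw [← h4]
    refine Nat.card_le_card_of_injective
      (fun p : {p : ℕ // p ≤ N ∧ p.Prime ∧ Bad' p} =>
        if h : Bad p.1 then Sum.inl ⟨p.1, p.2.1, p.2.2.1, h⟩ else
          Sum.inr ⟨p.1, Nat.lt_succ_of_le (Nat.le_of_dvd hm
            ((hB p.1 p.2.2.1 p.2.2.2).resolve_left h))⟩) ?_
    intro p q hpq
    by_cases hp : Bad p.1 <;> by_cases hq : Bad q.1
    · simp only [hp, hq, dif_pos, Sum.inl.injEq, Subtype.mk.injEq] at hpq
      exact Subtype.ext hpq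
    · simp [hp, hq] at hpq
    · simp [hp, hq] at hpq
    · simp only [hp, hq, dif_neg, not_false_eq_true, Sum.inr.injEq, Fin.mk.injEq] at hpq
      exact Subtype.ext hpq
  have h5 : (Nat.card {p : ℕ // p ≤ N ∧ p.Prime ∧ Bad' p} : ℝ) ≤
      Nat.card {p : ℕ // p ≤ N ∧ p.Prime ∧ Bad p} + (m + 1) := by
    exact_mod_cast h3
  have h6 : (ε' - ε) * (Nat.primeCounting N : ℝ) =
      ε' * Nat.primeCounting N - ε * Nat.primeCounting N := by ring
  linarith

lemma qAll_of_condII {R : Type u} [CommRing R] {n r : ℕ} {α : Fin n → R}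
    {A : Fin n → Matrix (Fin r) (Fin r) R} (h : CondII α A) : QAll α A := by
  obtain ⟨g, hg, h1⟩ := h
  refine ⟨g, hg, fun 𝔪 h𝔪 hgm p hp hpm => ?_⟩
  have hch : CharP (R ⧸ 𝔪) p := charP_quot' 𝔪 hp hpm
  let ifld : Field (R ⧸ 𝔪) := Ideal.Quotient.field 𝔪
  have h2 := Q_eq_zero_of_pCurvZero (h1 𝔪 hgm)
  rwa [ringChar.eq (R ⧸ 𝔪) p] at h2

theorem rational_of_condII {R : Type u} [CommRing R] [IsDomain R] [CharZero R]
    [Algebra.FiniteType ℤ R] {n r : ℕ} (hn : 0 < n) {α : Fin n → R}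
    (hα : ∀ i j, i ≠ j → IsUnit (α i - α j)) {A : Fin n → Matrix (Fin r) (Fin r) R}
    (h : CondII α A) : ∃ (lam : Fin n → Fin r → ℚ) (phi : Fin r → ℚ),
      (∀ j, HasExponents (A j) (lam j)) ∧ HasExponents (∑ j, A j) phi := by
  have hQ := qAll_of_condII h
  have hlam : ∀ j, ∃ lam : Fin r → ℚ, HasExponents (A j) lam := fun j => by
    obtain ⟨g, hg, h⟩ := qAll_residue hα hQ j
    exact hasExponents_of_residues (A j) hg h
  choose lam hlam using hlam
  obtain ⟨g, hg, hinf⟩ := qAll_infinity hn hQ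
  obtain ⟨phi, hphi⟩ := hasExponents_of_residues (∑ j, A j) hg hinf
  exact ⟨lam, phi, hlam, hphi⟩

/-- only finitely many residue characteristics of closed points on `g = 0` if `R` is algebraic -/
lemma exists_modulus {R : Type u} [CommRing R] [IsDomain R] [CharZero R]
    [Algebra.IsAlgebraic ℤ R] {g : R} (hg : g ≠ 0) :
    ∃ m : ℕ, 0 < m ∧ ∀ (𝔪 : Ideal R) [𝔪.IsMaximal] (p : ℕ), p.Prime → (p : R) ∈ 𝔪 → g ∈ 𝔪 →
      p ∣ m := by
  obtain ⟨z, hz, y, hy⟩ := (Algebra.IsAlgebraic.isAlgebraic (R := ℤ) g).exists_nonzero_dvd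
    (mem_nonZeroDivisors_of_ne_zero hg)
  refine ⟨z.natAbs, Int.natAbs_pos.2 hz, fun 𝔪 h𝔪 p hp hpm hgm => ?_⟩
  by_contra hcon
  have h1 : IsCoprime (p : ℤ) z := by
    rw [Int.isCoprime_iff_gcd_eq_one]
    have h2 : Nat.Coprime p z.natAbs := (Nat.Prime.coprime_iff_not_dvd hp).2 hcon
    simpa [Int.gcd] using h2
  obtain ⟨a, b, hab⟩ := h1
  have h3 : (z : R) ∈ 𝔪 := by
    have h4 : (z : R) = g * y := by
      rw [← hy]; simp
    rw [h4]
    exact 𝔪.mul_mem_right _ hgm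
  have h5 : (1 : R) = (a : R) * (p : R) + (b : R) * (z : R) := by
    have := congrArg (fun t : ℤ => (t : R)) hab
    push_cast at this
    exact this.symm
  exact h𝔪.ne_top ((Ideal.eq_top_iff_one _).2 (by
    rw [h5]
    exact 𝔪.add_mem (𝔪.mul_mem_left _ hpm) (𝔪.mul_mem_left _ h3)))

section defs

variable {R : Type u} [CommRing R] {F : Type v} [Field F] [Algebra R F] {V : Type w}
  [AddCommGroup V] [Module F V]

/-- For a proportion at least `ε` of the residue classes modulo `N` prime to `N` the `p`-curvature of `E`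
is nonzero at all the closed points of `Spec R[1/g]`, for some `g ≠ 0`, whose residue characteristic is a
large prime in one of these classes. -/
def BadModelClasses {A : Subalgebra R F} (nabla : V →+ V) (E : Submodule A V) (N : ℕ) (ε : ℝ) :
    Prop :=
  ∃ S : Finset (ZMod N)ˣ, ε * N.totient ≤ S.card ∧ BadModelFor nabla E N S

/-- The `p`-curvature of `E` is nonzero at some closed point of residue characteristic `p`. -/
def BadModelPt {A : Subalgebra R F} (nabla : V →+ V) (E : Submodule A V) (p : ℕ) : Prop :=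
  ∃ 𝔪 : Ideal R, 𝔪.IsMaximal ∧ (p : R) ∈ 𝔪 ∧ ¬ VanishAt nabla E 𝔪

end defs

section

variable {R : Type u} [CommRing R] [IsDomain R] [CharZero R] [Algebra.FiniteType ℤ R]
    {F : Type v} [Field F] [Algebra R F] {V : Type w}
    [AddCommGroup V] [Module F V] {n r : ℕ} {α : Fin n → R} {A : Fin n → Matrix (Fin r) (Fin r) R}
    {δ : Derivation R F F} {x : F} {nabla : V →+ V} {v : Fin r → V}
    {T : R[X]} {E : Submodule (CoordRing x T R) V}

lemma badModelClasses_of (hpb : HasPullback α A δ x nabla v)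
    (hRF : Function.Injective (algebraMap R F)) (hx : δ x = 1) (hT : T ≠ 0)
    (hE : IsModel x T nabla E) {N : ℕ} {ε : ℝ} {g : R} (hg : g ≠ 0)
    (h : BadClasses α A N ε g) : BadModelClasses nabla E N ε := by
  obtain ⟨g', hg', h1⟩ := transfer hRF hx hpb T hT E hE.fg hE.span
  obtain ⟨S, P₀, hS, h2⟩ := h
  refine ⟨S, hS, g * g', mul_ne_zero hg hg', P₀, fun p hp hpP s hs hps 𝔪 h𝔪 hpm hm h4 => ?_⟩
  exact h2 p hp hpP ⟨s, hs, hps⟩ 𝔪 hpm (fun h3 => hm (𝔪.mul_mem_right _ h3))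
    (h1 𝔪 (fun h3 => hm (𝔪.mul_mem_left _ h3)) h4)

lemma few_badPt_of (hpb : HasPullback α A δ x nabla v)
    (hRF : Function.Injective (algebraMap R F)) (hx : δ x = 1) (hT : T ≠ 0)
    (hE : IsModel x T nabla E) (halg : Algebra.IsAlgebraic ℤ R) {ε ε' : ℝ} (hε : ε < ε')
    (h : Few (BadModelPt nabla E) ε) : Few (BadPt α A) ε' := by
  obtain ⟨g, hg, h1⟩ := transfer hRF hx hpb T hT E hE.fg hE.span
  obtain ⟨m, hm, h2⟩ := exists_modulus hg
  refine few_except hε m hm (fun p hp hbad => ?_) h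
  obtain ⟨𝔪, h𝔪, hpm, h3⟩ := hbad
  by_cases hgm : g ∈ 𝔪
  · exact Or.inr (h2 𝔪 p hp hpm hgm)
  · exact Or.inl ⟨𝔪, h𝔪, hpm, fun h4 => h3 (h1 𝔪 hgm h4)⟩

end

end Pool.Agent.H320R
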