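import Pool.Agent.H320R.Defs2
import Pool.Agent.N858.PC.FinalSys
import Pool.Agent.Y227.TP.Final

set_option autoImplicit false

/-!
Systems with rough denominators: classes and density.
-/

open Finset

namespace Pool.Agent.H320R

open Pool.Agent.N858.PC Pool.Agent.W432.PC Pool.Agent.W432.TC Pool.Agent.W432.HK
open Pool.Agent.Y227.SS Pool.Agent.Y227.TP

universe u

lemma badClasses_mono {R : Type*} [CommRing R] {n r : ℕ} {α : Fin n → R}
    {A : Fin n → Matrix (Fin r) (Fin r) R} {N : ℕ} {ε ε' : ℝ} (hε : ε' ≤ ε) {g : R}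
    (h : BadClasses α A N ε g) : BadClasses α A N ε' g := by
  obtain ⟨S, P₀, h1, h2⟩ := h
  exact ⟨S, P₀, (mul_le_mul_of_nonneg_right hε (Nat.cast_nonneg _)).trans h1, h2⟩

lemma few_mono {Bad Bad' : ℕ → Prop} {ε ε' : ℝ} (hε : ε ≤ ε') (hB : ∀ p, Bad' p → Bad p)
    (h : Few Bad ε) : Few Bad' ε' := by
  intro N₀
  obtain ⟨N, hN, h1⟩ := h N₀
  refine ⟨N, hN, lt_of_le_of_lt ?_ (lt_of_lt_of_le h1
    (mul_le_mul_of_nonneg_right hε (Nat.cast_nonneg _)))⟩
  have hfin : Finite {p : ℕ // p ≤ N ∧ p.Prime ∧ Bad p} :=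
    Set.Finite.subset (Set.finite_Iic N) (fun p hp => hp.1)
  exact_mod_cast Nat.card_le_card_of_injective
    (fun p : {p : ℕ // p ≤ N ∧ p.Prime ∧ Bad' p} =>
      (⟨p.1, p.2.1, p.2.2.1, hB _ p.2.2.2⟩ : {p : ℕ // p ≤ N ∧ p.Prime ∧ Bad p}))
    (fun p q h => Subtype.ext (congrArg (fun x => x.1) h))

lemma exists_commonDen {n r : ℕ} (lam : Fin n → Fin r → ℚ) (phi : Fin r → ℚ) :
    ∃ N, CommonDen lam phi N := by
  refine ⟨(∏ j, ∏ l, (lam j l).den) * ∏ l, (phi l).den, ?_, fun j l => ?_, fun l => ?_⟩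
  · exact Nat.mul_pos (Finset.prod_pos fun _ _ => Finset.prod_pos fun _ _ => Rat.den_pos _)
      (Finset.prod_pos fun _ _ => Rat.den_pos _)
  · have h1 : (lam j l).den ∣ (∏ j, ∏ l, (lam j l).den) * ∏ l, (phi l).den :=
      Dvd.dvd.mul_right ((Finset.dvd_prod_of_mem (fun l => (lam j l).den) (Finset.mem_univ l)).trans
        (Finset.dvd_prod_of_mem (fun i => ∏ l, (lam i l).den) (Finset.mem_univ j))) _
    obtain ⟨k, hk⟩ := h1
    refine ⟨k * (lam j l).num, ?_⟩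
    rw [hk]
    push_cast
    have := Rat.den_mul_eq_num (lam j l)
    rw [mul_comm ((lam j l).den : ℚ) k, mul_assoc, this]
  · have h1 : (phi l).den ∣ (∏ j, ∏ l, (lam j l).den) * ∏ l, (phi l).den :=
      Dvd.dvd.mul_left (Finset.dvd_prod_of_mem (fun l => (phi l).den) (Finset.mem_univ l)) _
    obtain ⟨k, hk⟩ := h1
    refine ⟨k * (phi l).num, ?_⟩
    rw [hk]
    push_cast
    have := Rat.den_mul_eq_num (phi l)
    rw [mul_comm ((phi l).den : ℚ) k, mul_assoc, this]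

theorem main_sys (n r : ℕ) (hn : 0 < n) (hr : 2 ≤ r) :
    ∃ (ε : ℝ) (B : ℕ), 0 < ε ∧
      ∀ (R : Type u) [CommRing R] [IsDomain R] [CharZero R] [Algebra.FiniteType ℤ R]
        (α : Fin n → R) (A : Fin n → Matrix (Fin r) (Fin r) R),
        (∀ i j, i ≠ j → IsUnit (α i - α j)) →
        (∀ (lam : Fin n → Fin r → ℚ) (phi : Fin r → ℚ) (N : ℕ),
          (∀ j, HasExponents (A j) (lam j)) → HasExponents (∑ j, A j) phi →
          CommonDen lam phi N → Rough B (allExp lam phi) →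
          (Related B (allExp lam phi) ∨ (BadClasses α A N ε 1 ∧ ¬ CondII α A)) ∧
          (AbsIrreducible α A → Spread B (allExp lam phi) ∨
            (∃ g : R, g ≠ 0 ∧ BadClasses α A N ε g) ∧ ¬ CondII α A)) ∧
        (Algebra.IsAlgebraic ℤ R → Few (BadPt α A) ε →
          ∃ (lam : Fin n → Fin r → ℚ) (phi : Fin r → ℚ), (∀ j, DiagExps (A j) (lam j)) ∧
            DiagExps (∑ j, A j) phi ∧ (Rough B (allExp lam phi) → Related B (allExp lam phi) ∧
              (AbsIrreducible α A → Spread B (allExp lam phi)))) := by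
  obtain ⟨ε₁, 𝒟, hε₁, -, huni⟩ := uniform.{u} n r
  obtain ⟨ε₂, 𝒟', hε₂, -, hdens⟩ := density_sys.{u} n r
  obtain ⟨B, hB⟩ := structured n r hr
  have hne : Nontrivial (Option (Fin n)) := ⟨none, some ⟨0, hn⟩, by simp⟩
  refine ⟨min ε₁ ε₂, B, lt_min hε₁ hε₂, ?_⟩
  intro R _ _ _ _ α A hα
  have hF : ∀ {lam : Fin n → Fin r → ℚ} {phi : Fin r → ℚ}, (∀ j, HasExponents (A j) (lam j)) →
      HasExponents (∑ j, A j) phi → ∑ j, ∑ l, lam j l = ∑ l, phi l + ((0 : ℤ) : ℚ) := by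
    intro lam phi hlam hphi
    rw [sum_exponents hlam hphi]; simp
  refine ⟨fun lam phi N hlam hphi hN hR => ?_, fun halg hfew => ?_⟩
  · obtain ⟨h1, h2⟩ := huni R α A lam phi N hα hlam hphi hN.1 hN.2.1 hN.2.2
    constructor
    · rcases h1 with ⟨-, h⟩ | h
      · exact Or.inl (related_of_structured (hB lam phi N 0 hN.1 (hF hlam hphi) hR h).1)
      · exact Or.inr ⟨badClasses_mono (min_le_left _ _) h.1, h.2⟩
    · intro hirr
      rcases h2 hirr with h | ⟨⟨g, hg, h⟩, h'⟩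
      · exact Or.inl ((hB lam phi N 0 hN.1 (hF hlam hphi) hR
          fun a ha => semistable_of_stable (h a ha)).2 h)
      · exact Or.inr ⟨⟨g, hg, badClasses_mono (min_le_left _ _) h⟩, h'⟩
  · obtain ⟨lam, phi, h3, h4, h5, -⟩ := (hdens R α A hα).2
      (few_mono (min_le_right _ _) (fun _ h => h) hfew)
    refine ⟨lam, phi, h3, h4, fun hR => ?_⟩
    obtain ⟨N, hN⟩ := exists_commonDen lam phi
    have h6 := h5 N hN
    have h7 := hB lam phi N 0 hN.1 (hF (fun j => (h3 j).1) h4.1) hR (fun a ha => (h6 a ha).1)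
    exact ⟨related_of_structured h7.1, fun hirr => h7.2 fun a ha => (h6 a ha).2 hirr⟩

end Pool.Agent.H320R
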